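import Pool.Agent.TH813.EKPer
import Pool.Agent.Q192.QD.VarAll
import Pool.Agent.Q192.QD.Sigma

/-!
# The elliptico-toric conjecture at algebraic points of families, each in its own number field

Let `Λ_z` be a family of lattices with periods `ω₁(z), ω₂(z)`, analytic on a connected open set `U`, whose quotient is not
constant, let `p_1, …, p_r` be analytic functions, independent modulo the lattices, and `t_1, …, t_s` analytic functions no
nontrivial combination of which with integral coefficients is constant. We suppose that a set `S` of `2 + r + s` of the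
`5 + 3 r + 2 s` functions

  `ω₁, ω₂, η₁, g₂, g₃, p_i, ℘(p_i), ζ(p_i), t_k, exp(t_k)`

consists of algebraic functions of `z`. The main example is the one of the conjecture for `1`-motives over number fields:
`g₂, g₃, ℘(p_i), exp(t_k)` are algebraic, that is, `p_i` and `t_k` are logarithms of algebraic sections of a family of
elliptic curves and of `𝔾_m`. At an algebraic number `z` the conjecture says (in general) that the other `3 + 2 r + s`
numbers `ω₁, ω₂, η₁, p_i, ζ(p_i), t_k` and `π` are algebraically independent (`η₂` is determined by Legendre's relation).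

Let `X_1, …, X_n` be **any** finite sets of algebraic numbers of degree at most `m` and height at most `T`, in given
compact sets, and let `φ_j` be the number of the different fields `ℚ(x)`, `x ∈ X_j`. We prove for `n` families that for all
`n`-tuples in `X_1 × ⋯ × X_n`, with at most

  `C T^ε ∑_j φ_j ∏_(i ≠ j) |X_i|`

exceptions, the `∑ (3 + 2 r_j + s_j)` numbers do not satisfy any (approximate) relation of degree at most `d` in each
variable, whose coefficients are combinations of arbitrary complex numbers `ξ_1, …, ξ_g` (for instance of the powers of `π`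
and of periods and logarithms of other curves) with coefficients in the integers of the field `ℚ(x_1, …, x_n)`, of size at
most `T^A`. So for these `x` the numbers satisfy in this range the full lower bound of the conjecture, over `ℚ(π)` and over
all `ℚ(ξ)`. All constants are uniform in the sets `X_j` and in the `ξ_i`. Almost all `n`-tuples are good as soon as
`|X_j| ≥ φ_j T^(2ε)`; the sets may be sparse subsets of one number field (numbers with prime numerators and
denominators, for instance), or of many number fields of bounded degree.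

In `AnalyticFamilies` all points of a tuple are in one number field `F`, all points of `F` of height at most `T` are
considered, and the `3 + 2 r + s` independent functions are not specified (there is no condition of algebraicity).
-/

set_option autoImplicit false

open NumberField
open scoped PeriodPair

namespace Pool.Agent.Results.MP_8da9ea_nt.ManyNumberFields

/-- The Weierstrass zeta function `ζ(z) = ∑ (1/(z-l) + 1/l + z/l²)`, the sum over the lattice (the summand of `l = 0` is
`1/z`, since `1/0 = 0` in Lean). -/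
noncomputable def ζ (L : PeriodPair) (z : ℂ) : ℂ :=
  ∑' l : L.lattice, (1 / (z - l) + 1 / l + z / l ^ 2)

/-- The names of the functions `ω₁, ω₂, η₁, g₂, g₃`, `p_i`, `℘(p_i)`, `ζ(p_i)`, `t_k`, `exp(t_k)`. -/
inductive Name (r s : ℕ) : Type
  | omega₁ : Name r s
  | omega₂ : Name r s
  | eta₁ : Name r s
  | g₂ : Name r s
  | g₃ : Name r s
  | p : Fin r → Name r s
  | wp : Fin r → Name r s
  | zeta : Fin r → Name r s
  | t : Fin s → Name r s
  | expt : Fin s → Name r s

/-- The values of the functions at the point `z`; here `η₁ = 2 ζ(ω₁ / 2)`. -/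
noncomputable def value {r s : ℕ} (Λ : ℂ → PeriodPair) (p : Fin r → ℂ → ℂ) (t : Fin s → ℂ → ℂ) (z : ℂ) :
    Name r s → ℂ
  | Name.omega₁ => (Λ z).ω₁
  | Name.omega₂ => (Λ z).ω₂
  | Name.eta₁ => 2 * ζ (Λ z) ((Λ z).ω₁ / 2)
  | Name.g₂ => (Λ z).g₂
  | Name.g₃ => (Λ z).g₃
  | Name.p i => p i z
  | Name.wp i => ℘[Λ z] (p i z)
  | Name.zeta i => ζ (Λ z) (p i z)
  | Name.t k => t k z
  | Name.expt k => Complex.exp (t k z)

/-- `f` is algebraic over `ℂ(z)` on `U`. -/
def Algebraic (U : Set ℂ) (f : ℂ → ℂ) : Prop :=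
  ∃ P : MvPolynomial (Fin 2) ℂ, P ≠ 0 ∧ ∀ z ∈ U, MvPolynomial.eval ![z, f z] P = 0

/-- An analytic family of lattices with points and exponents, and `2 + r + s` of the `5 + 3 r + 2 s` functions which are
algebraic. -/
structure Family (U : Set ℂ) {r s : ℕ} (Λ : ℂ → PeriodPair) (p : Fin r → ℂ → ℂ) (t : Fin s → ℂ → ℂ)
    (S : Finset (Name r s)) : Prop where
  isOpen : IsOpen U
  isPreconnected : IsPreconnected U
  nonempty : U.Nonempty
  /-- the lattice depends analytically on `z` -/
  analytic₁ : AnalyticOnNhd ℂ (fun z => (Λ z).ω₁) U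
  analytic₂ : AnalyticOnNhd ℂ (fun z => (Λ z).ω₂) U
  /-- the quotient of the periods is not constant -/
  nonconstant : ∀ c : ℂ, ∃ z ∈ U, (Λ z).ω₂ / (Λ z).ω₁ ≠ c
  /-- the functions are analytic and the points of the elliptic curves are not zero -/
  analytic_p : ∀ i, AnalyticOnNhd ℂ (p i) U
  p_notMem : ∀ i, ∀ z ∈ U, p i z ∉ (Λ z).lattice
  analytic_t : ∀ k, AnalyticOnNhd ℂ (t k) U
  /-- the points are independent modulo torsion -/
  independent_p : ∀ n : Fin r → ℤ, (∀ z ∈ U, ∑ i, (n i : ℂ) * p i z ∈ (Λ z).lattice) → n = 0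
  /-- no nontrivial combination with integral coefficients of the `t_k` is constant -/
  independent_t : ∀ (m : Fin s → ℤ) (b : ℂ), (∀ z ∈ U, ∑ k, (m k : ℂ) * t k z = b) → m = 0
  card : S.card = 2 + r + s
  algebraic : ∀ x ∈ S, Algebraic U (fun z => value Λ p t z x)

/-- The algebraic numbers which are zeros of nonzero polynomials of degree at most `m` with integral coefficients of
absolute value at most `T`. -/
def Numbers (m : ℕ) (T : ℝ) : Set ℂ :=
  {x | ∃ P : Polynomial ℤ, P ≠ 0 ∧ P.natDegree ≤ m ∧ (∀ i, |(P.coeff i : ℝ)| ≤ T) ∧ Polynomial.aeval x P = 0}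

/-- The algebraic integers of the field generated by `S` all of whose conjugates have absolute value at most `H`. -/
def Integers (S : Set ℂ) (H : ℝ) : Set ℂ :=
  {c | c ∈ IntermediateField.adjoin ℚ S ∧ IsIntegral ℤ c ∧ ∀ z ∈ (minpoly ℚ c).aroots ℂ, ‖z‖ ≤ H}

/-- The number of the different fields `ℚ(x)`, `x ∈ X`. -/
noncomputable def fields (X : Finset ℂ) : ℕ :=
  Set.ncard {G : IntermediateField ℚ ℂ | ∃ x ∈ X, G = IntermediateField.adjoin ℚ {x}}

/-- The `n`-tuples `x`, `x_j ∈ X_j`, for which there is a polynomial `P` of degree at most `d` in each variable, with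
coefficients of the form `∑ ξ_i c_i`, where the `c_i` are integers of the field `ℚ(x_1, …, x_n)` all of whose conjugates
have absolute value at most `T ^ A`, such that the value of `P` at the numbers `v j (x j) i` is at most `T ^ (-B)` times
the absolute value of some nonzero coefficient of `P`. -/
def Exceptional {n : ℕ} (d : ℕ) {g : ℕ} {J : Fin n → Type} (v : ∀ j, ℂ → J j → ℂ) (X : Fin n → Finset ℂ)
    (ξ : Fin g → ℂ) (A B T : ℝ) : Set (Fin n → ℂ) :=
  {x | (∀ j, x j ∈ X j) ∧ ∃ P : MvPolynomial (Σ j, J j) ℂ, (∀ y, P.degreeOf y ≤ d) ∧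
    (∀ s, ∃ c : Fin g → ℂ, (∀ i, c i ∈ Integers (Set.range x) (T ^ A)) ∧ P.coeff s = ∑ i, ξ i * c i) ∧
    ∃ s₀, P.coeff s₀ ≠ 0 ∧
      ‖MvPolynomial.aeval (fun y : Σ j, J j => v y.1 (x y.1) y.2) P‖ ≤ T ^ (-B) * ‖P.coeff s₀‖}

/-- the name of a function -/
def nm {r s : ℕ} : Y776.Cv.Nv r s → Name r s :=
  Sum.elim ![Name.omega₁, Name.omega₂, Name.eta₁, Name.g₂, Name.g₃] (Sum.elim Name.p (Sum.elim Name.zeta
    (Sum.elim Name.wp (Sum.elim Name.t Name.expt))))

/-- the function with a given name -/
def mn {r s : ℕ} : Name r s → Y776.Cv.Nv r s := fun a => match a with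
  | Name.omega₁ => Sum.inl 0
  | Name.omega₂ => Sum.inl 1
  | Name.eta₁ => Sum.inl 2
  | Name.g₂ => Sum.inl 3
  | Name.g₃ => Sum.inl 4
  | Name.p i => Sum.inr (Sum.inl i)
  | Name.zeta i => Sum.inr (Sum.inr (Sum.inl i))
  | Name.wp i => Sum.inr (Sum.inr (Sum.inr (Sum.inl i)))
  | Name.t k => Sum.inr (Sum.inr (Sum.inr (Sum.inr (Sum.inl k))))
  | Name.expt k => Sum.inr (Sum.inr (Sum.inr (Sum.inr (Sum.inr k))))

/-- the names and the functions -/
def eqv (r s : ℕ) : Y776.Cv.Nv r s ≃ Name r s where
  toFun := nm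
  invFun := mn
  left_inv := by
    rintro (a | a | a | a | a | a)
    · fin_cases a <;> rfl
    all_goals rfl
  right_inv := by
    rintro (a | a | a | a | a | a | a | a | a | a) <;> rfl

theorem value_eq {r s : ℕ} (Λ : ℂ → PeriodPair) (p : Fin r → ℂ → ℂ) (t : Fin s → ℂ → ℂ) (z : ℂ)
    (i : Y776.Cv.Nv r s) : value Λ p t z (nm i) = Y776.Cv.yv Λ p t i z := by
  rcases i with (a | a | a | a | a | a)
  · fin_cases a
    · rfl
    · rfl
    · exact (Pool.Agent.TH813.Ell.eta_half (Λ z).ω₁_mem_lattice (Pool.Agent.TH813.Ell.half₁ (Λ z))).symm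
    · rfl
    · rfl
  all_goals rfl

noncomputable instance (r s : ℕ) : Fintype (Name r s) := Fintype.ofEquiv _ (eqv r s)

theorem card_name (r s : ℕ) : Fintype.card (Name r s) = 5 + 3 * r + 2 * s := by
  rw [← Fintype.card_congr (eqv r s)]
  simp only [Fintype.card_sum, Fintype.card_fin]
  ring

theorem fx {U : Set ℂ} {r s : ℕ} {Λ : ℂ → PeriodPair} {p : Fin r → ℂ → ℂ} {t : Fin s → ℂ → ℂ}
    {S : Finset (Name r s)} (h : Family U Λ p t S) : Y776.Cv.FxV U Λ p t :=
  { isOpen := h.isOpen, conn := h.isPreconnected, an₁ := h.analytic₁, an₂ := h.analytic₂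
    nr := h.nonconstant, ua := h.analytic_p, un := h.p_notMem, ui := h.independent_p
    la := h.analytic_t, li := h.independent_t }

/-- all other functions are independent -/
theorem loc {U : Set ℂ} {r s : ℕ} {Λ : ℂ → PeriodPair} {p : Fin r → ℂ → ℂ} {t : Fin s → ℂ → ℂ}
    {S : Finset (Name r s)} (h : Family U Λ p t S) [Fintype {x : Name r s // x ∉ S}] :
    ∀ t' ∈ U, Y124.LocInd (fun (k : {x : Name r s // x ∉ S}) => Y776.Cv.yv Λ p t (mn k.1)) t' := by
  classical
  choose! P hP0 hP using h.algebraic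
  refine Q192.QD.varAll (fx h) h.nonempty (fun k => Y776.Cv.yv_an (fx h) _) ?_
    (G := ⋃ x : Name r s, ((P x).coeffs : Set ℂ))
    (Set.countable_iUnion fun x => Set.Finite.countable (Finset.finite_toSet _)) ?_
  · have h1 := Fintype.card_subtype_compl (fun x => x ∈ S)
    rw [Fintype.card_congr (Equiv.refl {x : Name r s // x ∉ S})] at h1
    have h2 : Fintype.card {x : Name r s // x ∈ S} = 2 + r + s := by
      rw [Fintype.card_coe, h.card]
    rw [card_name, h2] at h1
    have h3 : Fintype.card {x : Name r s // x ∉ S} = 5 + 3 * r + 2 * s - (2 + r + s) := by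
      rw [← h1]
    rw [h3]
    omega
  · intro F hF z hz htr o
    by_cases ho : nm o ∈ S
    · have h1 : Y776.Fam.AlgOver F U (fun z => value Λ p t z (nm o)) :=
        ⟨P (nm o), hP0 _ ho, fun c hc => hF (Set.mem_iUnion.2 ⟨nm o, hc⟩), hP _ ho⟩
      have h2 := h1.mem le_rfl hz htr
      simp only [value_eq] at h2
      exact Y685.clo_le (fun s hs => by
        rw [Set.mem_singleton_iff.1 hs]
        exact Y685.subset_clo (Set.mem_insert _ _)) h2
    · refine Y685.subset_clo (Set.mem_insert_of_mem _ ⟨⟨nm o, ho⟩, ?_⟩)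
      have h4 : mn (nm o) = o := (eqv r s).left_inv o
      change Y776.Cv.yv Λ p t (mn (nm o)) z = _
      rw [h4]

/-- For `n` families (equal or different) and sets `S_j` of `2 + r_j + s_j` functions which are algebraic over `ℂ(z)`, for
all compact sets `K_j` in `U_j` and all `m`, `g`, `d`, `A` and `ε > 0` there are `B`, `C`, `T₀` such that for all complex
numbers `ξ_1, …, ξ_g`, all `T ≥ T₀` and all finite sets `X_j ⊆ K_j` of algebraic numbers of degree at most `m` and height at
most `T` the number of `n`-tuples in `X_1 × ⋯ × X_n` which are exceptional for the `3 + 2 r_j + s_j` functions not in `S_j`,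
for all `j`, is at most `C T^ε ∑_j (number of the fields ℚ(x), x ∈ X_j) ∏_(i ≠ j) |X_i|`. -/
theorem result {n : ℕ} {r s : Fin n → ℕ} (U : Fin n → Set ℂ) (Λ : Fin n → ℂ → PeriodPair)
    (p : ∀ j, Fin (r j) → ℂ → ℂ) (t : ∀ j, Fin (s j) → ℂ → ℂ) (S : ∀ j, Finset (Name (r j) (s j)))
    (hU : ∀ j, Family (U j) (Λ j) (p j) (t j) (S j))
    (K : Fin n → Set ℂ) (hK : ∀ j, IsCompact (K j)) (hKU : ∀ j, K j ⊆ U j) (m g d : ℕ) (A ε : ℝ) (hε : 0 < ε) :
    ∃ B C T₀ : ℝ, ∀ (ξ : Fin g → ℂ) (T : ℝ), T₀ ≤ T → ∀ X : Fin n → Finset ℂ,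
      (∀ j, ∀ x ∈ X j, x ∈ K j ∧ x ∈ Numbers m T) →
      (Exceptional d (fun j z (k : {x : Name (r j) (s j) // x ∉ S j}) => value (Λ j) (p j) (t j) z k.1)
        X ξ A B T).Finite ∧
        ((Exceptional d (fun j z (k : {x : Name (r j) (s j) // x ∉ S j}) => value (Λ j) (p j) (t j) z k.1)
          X ξ A B T).ncard : ℝ) ≤
          C * T ^ ε * ∑ j, (fields (X j) : ℝ) * ∏ i ∈ Finset.univ.erase j, ((X i).card : ℝ) := by
  classical
  obtain ⟨B, C, T₀, H⟩ := Q192.QD.fields_sigma (η := Fin g) m n d
    (fun j => (hU j).isOpen) (fun j => (hU j).isPreconnected)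
    (y := fun j (k : {x : Name (r j) (s j) // x ∉ S j}) => Y776.Cv.yv (Λ j) (p j) (t j) (mn k.1))
    (fun j k => Y776.Cv.yv_an (fx (hU j)) _) (fun j => loc (hU j)) hK hKU A ε hε
  refine ⟨B, C, T₀, fun ξ T hT X hX => H ξ T hT X hX _ ?_⟩
  rintro x ⟨hx, P, hPd, hPc, s₀, hs₀, hs⟩
  refine ⟨hx, P, hPd, hPc, s₀, hs₀, ?_⟩
  have hv : (fun y : Σ j, {x : Name (r j) (s j) // x ∉ S j} =>
      value (Λ y.1) (p y.1) (t y.1) (x y.1) y.2.1) =
      fun y : Σ j, {x : Name (r j) (s j) // x ∉ S j} =>
        Y776.Cv.yv (Λ y.1) (p y.1) (t y.1) (mn y.2.1) (x y.1) := by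
    funext y
    have h1 := value_eq (Λ y.1) (p y.1) (t y.1) (x y.1) (mn y.2.1)
    have h2 : nm (mn y.2.1) = y.2.1 := (eqv (r y.1) (s y.1)).right_inv _
    rw [h2] at h1
    exact h1
  rw [hv] at hs
  exact hs

end Pool.Agent.Results.MP_8da9ea_nt.ManyNumberFields
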