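import Mathlib
import Pool.Agent.Q29.OvX
import Pool.Agent.Q23.AQ.It
import Pool.Agent.Q23.AQ.Ex

/-!
# The elliptico-toric conjecture over arbitrary constants: uniform distribution of the multiples of the values

For real numbers `γ_1 < ⋯ < γ_N` and `α_1 > ⋯ > α_N` let `s_j(t) = (t - α_j) / (γ_j - α_j)`. The functions are the periods
`K(s_j(t))`, `E(s_j(t))`, `K(1 - s_j(t))` of the curves of Legendre with the parameters `s_j(t)` (for `N = 1`, `α = 0`, `γ = 1` the
curve with the parameter `t`), the exponentials `e ^ (β_i t)` for real numbers `β_i` which are linearly independent over `ℚ`, and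
the logarithms `log (t + x_i)` for distinct real numbers `x_i`. These are the periods of the curves and pairs
`t_ℓ, e ^ (t_ℓ)`, one of which is in `ℚ(t, β_i, x_i)`, as in the conjecture.
Let `ξ_1, …, ξ_g` be ARBITRARY real numbers, which may depend on `T` and may be as large as `T ^ H`, for instance
`π`, the `β_i` and the `x_i`.
Let `F` be a number field of degree at most `m` with an embedding in the complex numbers, and let `X` be any finite set of
numbers of `F` in `[a, b]` which are quotients of integers of `F` with conjugates at most `T`. For all but `C T ^ ε |X| ^ (n - 1)`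
of the `n`-tuples of elements `q_j` of `X` the following holds: every value `y` of a polynomial of partial degrees at most `d` at
the numbers `f_i(q_j)`, where the `f_i` are these functions, whose coefficients are polynomials in the `ξ_i` of partial degrees at most `d` with integer
coefficients at most `T ^ A`, one of the nonconstant ones being at least `T ^ (-H)` in absolute value, has uniformly distributed
multiples at all the scales `M` between `T ^ B` and `T ^ E`: `k y`, `k < M`, also for `k` in the set of the powers of fixed exponent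
or of the prime numbers in a residue class, is uniformly distributed modulo one with an error `M ^ (1 - κ)`. The constants do not
depend on the field, on the set `X` and on the numbers `ξ_i`.

The proof uses the theorem of helper23 on approximate relations over arbitrary constants at algebraic points (`Q23.AQ.fewR`,
from the starting files `Y124`, `Y771`), the independence of the functions (`Q23.AQ.comb_all`, `TH818.AR`), an inverse theorem for
the sums of Weyl and a form of the estimate of Vinogradov for the sums over primes with a power saving (`H373R2/NB`, `W110/HV`).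
-/

set_option autoImplicit false

namespace Pool.Agent.Results.MP_8da9ea_nt.MultiplesOverConstants

open Finset Polynomial

/-- The multiples of `x` are uniformly distributed at the scale `M`, with a power saving, along all polynomials of degree
at most `K` and along the primes of all residue classes:

* for every nonzero integer `b` with `|b| ≤ M ^ κ`, every `1 ≤ k ≤ K` and every real polynomial `R` of degree less than
  `k`, the number of `0 ≤ n < M` with the fractional part of `b x n ^ k + R(n)` in `[u, v)` is `(v - u) M` up to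
  `M ^ (1 - κ)`, for all `0 ≤ u ≤ v ≤ 1`;
* for every such `b`, every `1 ≤ d ≤ M ^ κ`, every `r` and every real `β`, the number of primes `p ≤ M` with
  `p ≡ r (mod d)` and the fractional part of `b x p + β` in `[u, v)` is `(v - u)` times the number of all the primes
  `p ≤ M` with `p ≡ r (mod d)`, up to `M ^ (1 - κ)`. -/
def Good (κ : ℝ) (K M : ℕ) (x : ℝ) : Prop :=
  (∀ b : ℤ, b ≠ 0 → |(b : ℝ)| ≤ (M : ℝ) ^ κ → ∀ k : ℕ, 1 ≤ k → k ≤ K → ∀ R : ℝ[X], R.degree < k →
    ∀ u v : ℝ, 0 ≤ u → u ≤ v → v ≤ 1 →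
      |(((range M).filter fun n : ℕ => u ≤ Int.fract (b * x * (n : ℝ) ^ k + R.eval (n : ℝ)) ∧
          Int.fract (b * x * (n : ℝ) ^ k + R.eval (n : ℝ)) < v).card : ℝ) - (v - u) * M| ≤
        (M : ℝ) ^ (1 - κ)) ∧
  (∀ b : ℤ, b ≠ 0 → |(b : ℝ)| ≤ (M : ℝ) ^ κ → ∀ d r : ℕ, 1 ≤ d → (d : ℝ) ≤ (M : ℝ) ^ κ → ∀ β : ℝ,
    ∀ u v : ℝ, 0 ≤ u → u ≤ v → v ≤ 1 →
      |(((range (M + 1)).filter fun p : ℕ => (p.Prime ∧ p ≡ r [MOD d]) ∧
          (u ≤ Int.fract (b * x * p + β) ∧ Int.fract (b * x * p + β) < v)).card : ℝ) -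
        (v - u) * ((range (M + 1)).filter fun p : ℕ => p.Prime ∧ p ≡ r [MOD d]).card| ≤
        (M : ℝ) ^ (1 - κ))

/-- The value at `y` of the polynomial `P` whose coefficients are integer polynomials in the numbers `ξ_1, …, ξ_g`. -/
noncomputable def value {g : ℕ} {τ : Type} (ξ : Fin g → ℝ) (y : τ → ℝ) (P : MvPolynomial τ (MvPolynomial (Fin g) ℤ)) : ℝ :=
  MvPolynomial.eval₂ (MvPolynomial.aeval ξ : MvPolynomial (Fin g) ℤ →ₐ[ℤ] ℝ).toRingHom y P

/-- The polynomials of degree at most `d` in every variable whose coefficients are polynomials in `ξ_1, …, ξ_g` of degree at most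
`d` in every variable with integer coefficients of absolute value at most `R`, with a nonconstant coefficient whose value is at
least `r` in absolute value. -/
def Admissible {g : ℕ} {τ : Type} (ξ : Fin g → ℝ) (d : ℕ) (R r : ℝ) (P : MvPolynomial τ (MvPolynomial (Fin g) ℤ)) : Prop :=
  (∀ j, P.degreeOf j ≤ d) ∧ (∀ e i, (P.coeff e).degreeOf i ≤ d) ∧ (∀ e u, |(((P.coeff e).coeff u : ℤ) : ℝ)| ≤ R) ∧
    ∃ e, e ≠ 0 ∧ r ≤ |MvPolynomial.aeval ξ (P.coeff e)|

/-- The numbers of a number field `F`, with an embedding `ι`, which are in `[a, b]` and are quotients of integers of `F` all of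
whose conjugates have absolute value at most `T`. -/
def IsPoint {F : Type} [Field F] (ι : F →+* ℂ) (a b T : ℝ) (x : F) : Prop :=
  (∃ t : ℝ, a ≤ t ∧ t ≤ b ∧ ι x = t) ∧
    ∃ α β : NumberField.RingOfIntegers F, β ≠ 0 ∧ (∀ φ : F →+* ℂ, ‖φ α‖ ≤ T ∧ ‖φ β‖ ≤ T) ∧ x = α / β

/-- The `n`-tuples `q` of numbers of `X` for which there are an admissible polynomial `P` and an `M` between `T ^ B` and `T ^ E`
such that the multiples of its value at the numbers `f_i(q_j)` are not uniformly distributed at the scale `M`. -/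
def Exceptional {κ F : Type} [Field F] {g : ℕ} (n : ℕ) (f : κ → ℝ → ℝ) (ι : F →+* ℂ) (X : Finset F) (ξ : Fin g → ℝ)
    (d K : ℕ) (A H κ₀ B E T : ℝ) : Set (Fin n → F) :=
  {q | (∀ j, q j ∈ X) ∧
    ∃ P : MvPolynomial (Fin n × κ) (MvPolynomial (Fin g) ℤ), Admissible ξ d (T ^ A) (T ^ (-H)) P ∧
      ∃ M : ℕ, T ^ B ≤ (M : ℝ) ∧ (M : ℝ) ≤ T ^ E ∧ ¬ Good κ₀ K M (value ξ (fun z => f z.2 (ι (q z.1)).re) P)}

/-- The assertion for the functions `f_i` on `[a, b]`. -/
def FewExceptions {κ : Type} (f : κ → ℝ → ℝ) (a b : ℝ) : Prop :=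
  ∀ (m n g d K : ℕ) (H A ε : ℝ), 0 ≤ H → 0 ≤ A → 0 < ε → ∃ B : ℝ, 1 ≤ B ∧ ∀ E : ℝ, ∃ κ₀ : ℝ, 0 < κ₀ ∧ ∃ C T₀ : ℝ,
    ∀ (F : Type) [Field F] [NumberField F], Module.finrank ℚ F ≤ m → ∀ (ι : F →+* ℂ) (ξ : Fin g → ℝ) (T : ℝ), T₀ ≤ T →
      (∀ i, |ξ i| ≤ T ^ H) → ∀ X : Finset F, (∀ x ∈ X, IsPoint ι a b T x) →
        (Exceptional n f ι X ξ d K A H κ₀ B E T).Finite ∧
        ((Exceptional n f ι X ξ d K A H κ₀ B E T).ncard : ℝ) ≤ C * T ^ ε * (X.card : ℝ) ^ (n - 1)

/-- The complete elliptic integral of the first kind, `K(s) = ∫_0^{π/2} (1 - s sin²θ)^(-1/2) dθ`. -/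
noncomputable def K (s : ℝ) : ℝ := ∫ θ in (0 : ℝ)..(Real.pi / 2), 1 / √(1 - s * Real.sin θ ^ 2)

/-- The complete elliptic integral of the second kind, `E(s) = ∫_0^{π/2} (1 - s sin²θ)^(1/2) dθ`. -/
noncomputable def E (s : ℝ) : ℝ := ∫ θ in (0 : ℝ)..(Real.pi / 2), √(1 - s * Real.sin θ ^ 2)

/-- The functions `K(s)`, `E(s)`, `K(1 - s)` for `s = (t - α_j) / (γ_j - α_j)`, `j < N`, the functions `e ^ (β_i t)`, `i < k`,
and the functions `log (t + x_i)`, `i < r`. -/
noncomputable def functions {N k r : ℕ} (α γ : Fin N → ℝ) (β : Fin k → ℝ) (x : Fin r → ℝ)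
    (z : (Fin N × Fin 3) ⊕ (Fin k ⊕ Fin r)) (t : ℝ) : ℝ :=
  match z with
  | Sum.inl (j, i) => ![K ((t - α j) / (γ j - α j)), E ((t - α j) / (γ j - α j)), K (1 - (t - α j) / (γ j - α j))] i
  | Sum.inr (Sum.inl i) => Real.exp (β i * t)
  | Sum.inr (Sum.inr i) => Real.log (t + x i)

theorem few {κ : Type} [Fintype κ] [DecidableEq κ] (f : κ → ℝ → ℝ) (a b : ℝ)
    (han : ∀ i, AnalyticOnNhd ℝ (f i) (Set.Icc a b)) (hind : Pool.Agent.Y120.AInd f a b) : FewExceptions f a b := by
  intro m n g d K H A ε hH hA hε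
  obtain ⟨B, hB, h⟩ := Pool.Agent.Q29.Eqd.badX_count f a b han hind m n g d K H A ε hH hA hε
  refine ⟨B, hB, fun E => ?_⟩
  obtain ⟨κ₀, C, T₀, hκ₀, hC⟩ := h E
  refine ⟨κ₀, hκ₀, C, T₀, fun F _ _ hF ι ξ T hT hξ X hX => ?_⟩
  have hsub : Exceptional n f ι X ξ d K A H κ₀ B E T ⊆ Pool.Agent.Q29.Eqd.BadX n g d K ι X f (T ^ A) (T ^ (-H)) κ₀ (T ^ B) (T ^ E) ξ := by
    rintro q ⟨hq, P, ⟨hP1, hP2, hP3, hP4⟩, hbad⟩
    exact ⟨hq, P, hP1, hP2, hP3, hP4, hbad⟩
  have hfin := Pool.Agent.Q29.Eqd.badX_fin n g d K ι X f (T ^ A) (T ^ (-H)) κ₀ (T ^ B) (T ^ E) ξ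
  refine ⟨hfin.subset hsub, le_trans ?_ (hC F hF ι ξ T hT hξ X hX)⟩
  exact_mod_cast Set.ncard_le_ncard hsub hfin

/-- Let `α_1 > ⋯ > α_N`, `γ_1 < ⋯ < γ_N`, `α_1 < a < b < γ_1`, let `β_1, …, β_k` be real numbers which are linearly independent
over `ℚ` and let `x_1, …, x_r` be distinct real numbers such that `α_j + x_i > 0` for all `i` and `j`, and `a + x_i > 0`. -/
theorem result {N k r : ℕ} (α γ : Fin N → ℝ) (hα : StrictAnti α) (hγ : StrictMono γ) (β : Fin k → ℝ)
    (hβ : ∀ m : Fin k → ℤ, ∑ i, (m i : ℝ) * β i = 0 → m = 0) (x : Fin r → ℝ) (hx : Function.Injective x)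
    (hαx : ∀ i j, 0 < α j + x i) (a b : ℝ) (hab : a < b) (hax : ∀ i, 0 < a + x i) (h : ∀ j, α j < a ∧ b < γ j) :
    FewExceptions (functions α γ β x) a b := by
  obtain ⟨c, hca, hcα, hcx⟩ : ∃ c : ℝ, c ≤ a ∧ (∀ j, c < α j) ∧ ∀ i, 0 < c + x i := by
    obtain ⟨η, hη, hη1, hη2⟩ : ∃ η : ℝ, 0 < η ∧ (∀ i j, η < α j + x i) ∧ ∀ i, η < a + x i := by
      have h1 : ∀ i : Fin r, ∀ᶠ η : ℝ in nhdsWithin 0 (Set.Ioi 0), η < a + x i := fun i =>
        (Filter.Tendsto.eventually_lt_const (hax i) (Filter.tendsto_id.mono_left nhdsWithin_le_nhds))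
      have h2 : ∀ (i : Fin r) (j : Fin N), ∀ᶠ η : ℝ in nhdsWithin 0 (Set.Ioi 0), η < α j + x i := fun i j =>
        (Filter.Tendsto.eventually_lt_const (hαx i j) (Filter.tendsto_id.mono_left nhdsWithin_le_nhds))
      have h3 : ∀ᶠ η : ℝ in nhdsWithin 0 (Set.Ioi 0), 0 < η := self_mem_nhdsWithin
      obtain ⟨η, hη1, hη2, hη3⟩ := ((Filter.eventually_all.2 h1).and ((Filter.eventually_all.2 fun i =>
        Filter.eventually_all.2 (h2 i)).and h3)).exists
      exact ⟨η, hη3, hη2, hη1⟩
    classical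
    -- the infimum of `a` and the `α_j`
    have hne : (insert a (Finset.univ.image α)).Nonempty := ⟨a, Finset.mem_insert_self _ _⟩
    refine ⟨(insert a (Finset.univ.image α)).min' hne - η, ?_, fun j => ?_, fun i => ?_⟩
    · have := Finset.min'_le (insert a (Finset.univ.image α)) a (Finset.mem_insert_self _ _)
      linarith
    · have := Finset.min'_le (insert a (Finset.univ.image α)) (α j)
        (Finset.mem_insert_of_mem (Finset.mem_image_of_mem _ (Finset.mem_univ j)))
      linarith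
    · have h1 := Finset.min'_mem (insert a (Finset.univ.image α)) hne
      rw [Finset.mem_insert] at h1
      rcases h1 with h1 | h1
      · rw [h1]
        linarith [hη2 i]
      · obtain ⟨j, _, h2⟩ := Finset.mem_image.1 h1
        rw [← h2]
        linarith [hη1 i j]
  have heq : functions α γ β x = Sum.elim (fun z : Fin N × Fin 3 => TH818.AP.KC (α z.1) (γ z.1) z.2)
      (Sum.elim (Q23.AQ.ef β) (TH659.AQ.lf x)) := by
    funext z t
    rcases z with ⟨j, i⟩ | (i | i)
    · have hne : γ j - α j ≠ 0 := by linarith [(h j).1, (h j).2]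
      fin_cases i
      · rfl
      · rfl
      · show K (1 - (t - α j) / (γ j - α j)) = TH818.AR.KK ((γ j - t) / (γ j - α j))
        have : 1 - (t - α j) / (γ j - α j) = (γ j - t) / (γ j - α j) := by
          field_simp
          ring
        rw [this]
        rfl
    · rfl
    · rfl
  rw [heq]
  refine few _ a b ?_ ?_
  · rintro (z | (i | i)) t ht
    · exact TH818.AP.kc_an _ _ ((h z.1).1.trans (hab.trans (h z.1).2)) z.2 t ((h z.1).1.trans_le ht.1)
        (lt_of_le_of_lt ht.2 (h z.1).2)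
    · exact Q23.AQ.ef_an β i t
    · exact TH659.AQ.lf_an x i (by linarith [hax i, ht.1])
  · intro d
    exact Q23.AQ.comb_all (d := d) (Q23.AQ.ef β) (Q23.AQ.ef_an β) (fun a' b' hab' => Q23.AQ.ef_ind β hβ a' b' hab') α γ x hα
      hγ hx c hcα hcx a b hab hca h

end Pool.Agent.Results.MP_8da9ea_nt.MultiplesOverConstants
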