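import Mathlib
import Pool.Agent.Q24.ET.Mixed
import Pool.Agent.W245.EB.Par

/-!
# The elliptico-toric conjecture in bounded degree, for random points

Let `Ω = ℤ ω₁ + ℤ ω₂` be a lattice with algebraic invariants and complex multiplication by `α`,
`k = End(ℂ/Ω) ⊗ ℚ`, with quasi-periods `η₁, η₂`, and let `θ_1, …, θ_q` be arbitrary complex numbers.

* Toric part: for every `l ≤ s` let `x_{l,1}, …, x_{l,r}` be ARBITRARY complex numbers which are linearly
  independent over `ℚ`, and `τ_l` an arbitrary complex number. We put `t_l = τ_l + ∑_i a_{l,i} x_{l,i}`.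
* Elliptic part: for every `j ≤ n` let `u_{j,1}, …, u_{j,r}` be elliptic logarithms of algebraic points,
  linearly independent over `k`, and `b_j` an elliptic logarithm of an algebraic point. We put
  `p_j = b_j + ∑_i (m_{j,i,0} + m_{j,i,1} α) u_{j,i}`.

The coefficients `a`, `m` run through an arbitrary finite set `A` of integers, for instance `{0, 1}`. One can
choose one number `w_l` out of each pair `t_l, e^(t_l)` (the choice depends on `x` only) such that for all but
`C |A|^((s + 2 n) r - δ r)` of the `|A|^((s + 2 n) r)` choices of `(a, m)`: the points `p_j` are not in `Ω`, they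
are linearly independent over `k` modulo `Ω ⊗ ℚ`, and every polynomial relation of degree at most `D` over the
algebraic numbers between `ω₁, ω₂, η₁, η₂, 2πi, θ_1, …, θ_q` and the `s + 2 n` numbers `w_l`, `p_j`, `ζ(p_j)` of
the field `K` of the conjecture is trivial: it is a consequence of relations between
`ω₁, ω₂, η₁, η₂, 2πi, θ_1, …, θ_q`. This is the lower bound `tr.deg ≥ s + 4/[k:ℚ] + 2 n` of the conjecture in
bounded degree, since `ℚ(ω₁, ω₂, η₁, η₂)` has transcendence degree `2 = 4/[k:ℚ]` (Chudnovsky).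

In the starting file `GenericToricElliptic` the `x_{l,i}` are logarithms of algebraic numbers, and the integers
`a`, `m` avoid a hypersurface of large degree, which says nothing for small sets `A`.

The proof combines the theorems `Pool.Agent.Y918.GB.sch` (random combinations of arbitrary numbers) and
`Pool.Agent.Y918.EL.cmpoints` (random points on curves with complex multiplication) of the starting files.
-/

set_option autoImplicit false

open scoped PeriodPair

noncomputable section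

namespace Pool.Agent.Results.MP_8da9ea_nt.RandomPoints

/-- The field of algebraic numbers. -/
abbrev Qbar : IntermediateField ℚ ℂ := algebraicClosure ℚ ℂ

/-- The Weierstrass zeta function
`ζ(z) = 1/z + ∑_{l ≠ 0} (1/(z - l) + 1/l + z/l²)` (in Lean `1/0 = 0`, so that the term with `l = 0`
of the sum below is `1/z`). -/
def zetaW (L : PeriodPair) (z : ℂ) : ℂ := ∑' l : L.lattice, (1 / (z - l) + 1 / l + z / l ^ 2)

/-- The quasi-period `η(ω) = ζ(z + ω) - ζ(z)` attached to `ω ∈ Ω`, computed at `z = ω₁/2`. -/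
def quasi (L : PeriodPair) (ω : ℂ) : ℂ := zetaW L (L.ω₁ / 2 + ω) - zetaW L (L.ω₁ / 2)

/-- The numbers `ω₁, ω₂, η₁, η₂, 2πi`. -/
def periodsOf (L : PeriodPair) : Fin 5 → ℂ :=
  ![L.ω₁, L.ω₂, quasi L L.ω₁, quasi L L.ω₂, 2 * Real.pi * Complex.I]

/-- `β` belongs to the field `k = End(ℂ/Ω) ⊗ ℚ`: some multiple `m β`, `m ≥ 1`, maps the lattice `Ω`
to itself. -/
def IsMult (L : PeriodPair) (β : ℂ) : Prop :=
  ∃ m : ℕ, 0 < m ∧ ∀ ω ∈ L.lattice, (m : ℂ) * β * ω ∈ L.lattice

/-- The numbers `w_j` are linearly independent over `k`. -/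
def IndepMult (L : PeriodPair) {R : ℕ} (w : Fin R → ℂ) : Prop :=
  ∀ β : Fin R → ℂ, (∀ j, IsMult L (β j)) → ∑ j, β j * w j = 0 → ∀ j, β j = 0

/-- `z` is an elliptic logarithm of an algebraic point. -/
def IsEllLog (L : PeriodPair) (z : ℂ) : Prop := z ∈ L.lattice ∨ IsAlgebraic ℚ (℘[L] z)

/-- Every polynomial relation of total degree at most `D`, with algebraic coefficients, between the
numbers `θ` and the numbers `x` is an identity in the latter. -/
def OnlyTrivialRelations (D : ℕ) {P σ : Type} (θ : P → ℂ) (x : σ → ℂ) : Prop :=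
  ∀ Q : MvPolynomial (P ⊕ σ) Qbar, Q.totalDegree ≤ D →
    MvPolynomial.aeval (Sum.elim θ x) Q = 0 →
    ∀ y : σ → ℂ, MvPolynomial.aeval (Sum.elim θ y) Q = 0

/-- The numbers `t_l = τ_l + ∑_i a_{l,i} x_{l,i}`. -/
def exponents {s r : ℕ} (τ : Fin s → ℂ) (x : Fin s → Fin r → ℂ) (a : Fin s → Fin r → ℤ)
    (l : Fin s) : ℂ := τ l + ∑ i, (a l i : ℂ) * x l i

/-- The points `p_j = b_j + ∑_i (m_{j,i,0} + m_{j,i,1} α) u_{j,i}`. -/
def points {n r : ℕ} (α : ℂ) (b : Fin n → ℂ) (u : Fin n → Fin r → ℂ)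
    (m : Fin n → Fin r × Fin 2 → ℤ) (j : Fin n) : ℂ :=
  b j + ∑ i, ((m j (i, 0) : ℂ) + m j (i, 1) * α) * u j i

/-- The conclusion for the numbers `t` and `p`; `c l` tells whether `t_l` or `e^(t_l)` is taken. The points are
not in `Ω` and algebraic, they are linearly independent over `k` modulo `Ω ⊗ ℚ`, and there are only trivial
relations. -/
def Good (L : PeriodPair) (D : ℕ) {q s n : ℕ} (θ : Fin q → ℂ) (c : Fin s → Bool) (t : Fin s → ℂ)
    (p : Fin n → ℂ) : Prop :=
  (∀ j, p j ∉ L.lattice ∧ IsAlgebraic ℚ (℘[L] (p j))) ∧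
  (∀ β : Fin n → ℂ, (∀ j, IsMult L (β j)) → ∀ y y' : ℚ,
    ∑ j, β j * p j = y * L.ω₁ + y' * L.ω₂ → ∀ j, β j = 0) ∧
  OnlyTrivialRelations D (Sum.elim (periodsOf L) θ)
    (Sum.elim (fun l => if c l = true then t l else Complex.exp (t l))
      (Sum.elim p (fun j => zetaW L (p j))))

open Pool.Agent.W245.EB

lemma smul_mem_W {W : Submodule Qbar ℂ} {x : ℂ} (hx : x ∈ W) {b : ℂ} (hb : b ∈ QB) : b * x ∈ W :=
  W.smul_mem (⟨b, hb⟩ : Qbar) hx

lemma ratCast_mem_QB (b : ℚ) : (b : ℂ) ∈ QB := by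
  rw [mem_QB]
  have := isAlgebraic_algebraMap (R := ℚ) (A := ℂ) b
  simpa using this

open Classical in
/-- **Main result.** -/
theorem result (s n q D : ℕ) : ∃ (r₀ C : ℕ) (δ : ℝ), 0 < δ ∧ ∀ r ≥ r₀,
    -- toric part: arbitrary complex numbers
    ∀ x : Fin s → Fin r → ℂ, (∀ l, LinearIndependent ℚ (x l)) → ∃ c : Fin s → Bool,
    -- an elliptic curve with complex multiplication
    ∀ L : PeriodPair, IsAlgebraic ℚ L.g₂ → IsAlgebraic ℚ L.g₃ →
    ∀ α : ℂ, α.im ≠ 0 → (∀ ω ∈ L.lattice, α * ω ∈ L.lattice) →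
    -- elliptic logarithms of algebraic points
    ∀ u : Fin n → Fin r → ℂ, (∀ j i, IsEllLog L (u j i)) → (∀ j, IndepMult L (u j)) →
    ∀ A : Finset ℤ, A.Nonempty → ∀ (τ : Fin s → ℂ) (b : Fin n → ℂ), (∀ j, IsEllLog L (b j)) →
    ∀ θ : Fin q → ℂ,
    ((((Fintype.piFinset fun _ : Fin s => Fintype.piFinset fun _ : Fin r => A) ×ˢ
        (Fintype.piFinset fun _ : Fin n => Fintype.piFinset fun _ : Fin r × Fin 2 => A)).filter
      (fun z => ¬ Good L D θ c (exponents τ x z.1) (points α b u z.2))).card : ℝ) ≤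
      C * (A.card : ℝ) ^ (((s + 2 * n) * r : ℝ) - δ * r) := by
  obtain ⟨r₀, C, δ, hδ, h⟩ := Pool.Agent.Q24.ET.mixed s n (D + 1) ((D + 1 + 1) ^ (5 + q))
  refine ⟨r₀, C, δ, hδ, fun r hr x hx => ?_⟩
  obtain ⟨c, hc⟩ := h r hr x hx
  refine ⟨c, fun L h2 h3 α hα hmul u hu hind A hA τ b hb θ => ?_⟩
  let d : Fin n → Pool.Agent.Y918.EL.CM := fun _ =>
    { L := L
      g2 := h2
      g3 := h3
      α := α
      hα := hα
      hm := hmul }
  set Θ : Fin 5 ⊕ Fin q → ℂ := Sum.elim (periodsOf L) θ with hΘ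
  set W : Submodule Qbar ℂ := monSpan Θ (D + 1) with hWdef
  have hD : 1 ≤ D + 1 := Nat.le_add_left 1 D
  have hfin : Module.Finite Qbar W := monSpan_finite Θ (D + 1)
  have hW : Module.finrank Qbar W ≤ (D + 1 + 1) ^ (5 + q) := by
    refine (finrank_monSpan Θ (D + 1)).trans (le_of_eq ?_)
    simp
  have h1 : (1 : ℂ) ∈ W := one_mem_monSpan Θ (D + 1)
  have hw1 : L.ω₁ ∈ W := mem_monSpan Θ hD (Sum.inl 0)
  have hw2 : L.ω₂ ∈ W := mem_monSpan Θ hD (Sum.inl 1)
  have h4 := hc d u (fun j => ⟨hu j, fun β hβ h0 => funext fun i => hind j β hβ h0 i⟩) A hA W hfin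
    hW τ b hb
  refine le_trans (Nat.cast_le.2 (Finset.card_le_card ?_)) h4
  intro z hz
  rw [Finset.mem_filter] at hz ⊢
  refine ⟨hz.1, fun hG => hz.2 ?_⟩
  obtain ⟨hn, hr⟩ := hG
  have hpt : points α b u z.2 = Pool.Agent.Y918.EL.pt d b u z.2 := rfl
  set p := points α b u z.2 with hp
  have hpn : ∀ i, p i ∉ L.lattice := fun i => (hn i).1
  have h5 : NoRelTot W (D + 1) (Sum.elim (Pool.Agent.Q24.ET.wn c τ x z.1)
      (Sum.elim p (fun i => zt L (p i)))) := hr
  refine ⟨fun i => ⟨hpn i, (hn i).2.resolve_left (hpn i)⟩, ?_, ?_⟩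
  · intro β hβ y y' h0
    let β' : Fin s ⊕ (Fin n ⊕ Fin n) → Qbar := Sum.elim (fun _ => 0)
      (Sum.elim (fun i => ⟨β i, mult_mem_Qb (hβ i)⟩) (fun _ => 0))
    have h6 := h5.linear hD h1 β' (W.add_mem (smul_mem_W hw1 (ratCast_mem_QB y))
      (smul_mem_W hw2 (ratCast_mem_QB y'))) (by
      rw [Fintype.sum_sum_type, Fintype.sum_sum_type]
      simp only [β', Sum.elim_inl, Sum.elim_inr, map_zero, zero_mul, Finset.sum_const_zero,
        add_zero, zero_add]
      exact h0)
    intro i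
    have h7 := congrFun h6 (Sum.inr (Sum.inl i))
    exact congrArg (fun x : Qbar => (x : ℂ)) h7
  · have h6 : (fun i => zetaW L (p i)) = fun i => zt L (p i) := by
      funext i
      rw [zt_of_notMem (hpn i)]
      rfl
    rw [h6]
    intro Q hQ h0 y
    exact NoRelTot.param Θ h5 Q (hQ.trans (Nat.le_succ D)) h0 y

end Pool.Agent.Results.MP_8da9ea_nt.RandomPoints
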