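import Pool.Agent.Q311.LN.E
import Pool.Agent.Y776.Cv.Var
import Pool.Agent.TH813.EKPer
import Pool.Agent.H340R2.LW

/-!
# The elliptico-toric conjecture, in bounded degree, for analytic families of lattices, points and exponents of any
# dimension

Let `Λ_x`, `x ∈ U`, be a family of lattices with periods `ω₁(x), ω₂(x)`, `p_1(x), …, p_n(x)` points outside `Λ_x` and
`t_1(x), …, t_s(x)` exponents, where `U` is a connected open subset of an affine space, of any dimension. We assume that
the functions `ω₁, ω₂, η₁, g₂, g₃`, `p_i, ℘(p_i), ζ(p_i)`, `t_k` are analytic on `U`. Nothing is assumed to be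
algebraic. Genericity is required along one line which meets `U` only: along it, `ω₂ / ω₁` is not constant, no nontrivial
combination `∑ m_i p_i(x)` with integral coefficients is in `Λ_x` for all points `x`, and no nontrivial combination
`∑ m_k t_k(x)` with integral coefficients is constant.

For a point `x` such that the lattice has no complex multiplication, the `p_i(x)` are independent modulo `ℚ Λ_x` and
`2 π i` and the `t_k(x)` are independent over `ℚ`, the conjecture says that `4 + 2 n + s` of the numbers `ω₁, ω₂, η₁, η₂,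
g₂, g₃`, `p_i, ℘(p_i), ζ(p_i)`, `t_k, exp(t_k)` are algebraically independent; `2 π i = ± (ω₂ η₁ - ω₁ η₂)` is in the field
which they generate. The theorem: there are `3 + 2 n + s` fixed functions among them which, together with the number
`2 π i`, do not satisfy a relation of bounded degree at almost all algebraic points `x`: there are bounds `ω T → ∞` such
that for all number fields `K` of degree at most `ω T`, at all points `x ∈ U` with coordinates in `K` of height at
most `T` outside few hypersurfaces of small degree, the `4 + 2 n + s` numbers do not satisfy any nontrivial relation of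
degree at most `ω T` with integral coefficients in `K` of size at most `T ^ ω T`. The same holds for relations between
the `3 + 2 n + s` values whose coefficients are combinations of arbitrary complex constants `ξ` with such integral
coefficients. (The conditions on the `p_i(x)` and `t_k(x)` may fail at the points of hypersurfaces, so exceptional
hypersurfaces cannot be avoided.)
-/

set_option autoImplicit false

open Filter NumberField Pool.Agent.Q311.MV Pool.Agent.Q311.LN
open Pool.Agent.Y890.MV (InnerM)
open scoped PeriodPair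

namespace Pool.Agent.Results.MP_8da9ea_nt.SeveralVariables

/-- The names of the functions `ω₁, ω₂, η₁, g₂, g₃`, `p_i`, `ζ(p_i)`, `℘(p_i)`, `t_k`, `exp(t_k)`. -/
inductive Name (n s : ℕ) : Type
  | omega₁ : Name n s
  | omega₂ : Name n s
  | eta₁ : Name n s
  | g₂ : Name n s
  | g₃ : Name n s
  | p : Fin n → Name n s
  | zeta : Fin n → Name n s
  | wp : Fin n → Name n s
  | t : Fin s → Name n s
  | expt : Fin s → Name n s

/-- The values of the functions at the point `x`; here `η₁ = 2 ζ(ω₁ / 2)`. -/
noncomputable def value {X : Type} {n s : ℕ} (Λ : (X → ℂ) → PeriodPair) (p : Fin n → (X → ℂ) → ℂ)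
    (t : Fin s → (X → ℂ) → ℂ) (x : X → ℂ) : Name n s → ℂ
  | Name.omega₁ => (Λ x).ω₁
  | Name.omega₂ => (Λ x).ω₂
  | Name.eta₁ => 2 * ζ (Λ x) ((Λ x).ω₁ / 2)
  | Name.g₂ => (Λ x).g₂
  | Name.g₃ => (Λ x).g₃
  | Name.p i => p i x
  | Name.zeta i => ζ (Λ x) (p i x)
  | Name.wp i => ℘[Λ x] (p i x)
  | Name.t k => t k x
  | Name.expt k => Complex.exp (t k x)

/-- An analytic family of lattices with points and exponents, generic along the line `a + z v` near the point with
parameter `z₀`. -/
structure Family {X : Type} [Fintype X] (U : Set (X → ℂ)) {n s : ℕ} (Λ : (X → ℂ) → PeriodPair)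
    (p : Fin n → (X → ℂ) → ℂ) (t : Fin s → (X → ℂ) → ℂ) (a v : X → ℂ) (z₀ : ℂ) (r : ℝ) : Prop where
  isPreconnected : IsPreconnected U
  analytic : ∀ m : Name n s, AnalyticOnNhd ℂ (fun x => value Λ p t x m) U
  p_notMem : ∀ i, ∀ x ∈ U, p i x ∉ (Λ x).lattice
  r_pos : 0 < r
  mem : ∀ z ∈ Metric.ball z₀ r, pt a v z ∈ U
  /-- the quotient of the periods is not constant along the line -/
  nonconstant : ∀ c : ℂ, ∃ z ∈ Metric.ball z₀ r, (Λ (pt a v z)).ω₂ / (Λ (pt a v z)).ω₁ ≠ c
  /-- the points are independent modulo torsion along the line -/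
  independent_p : ∀ m : Fin n → ℤ,
    (∀ z ∈ Metric.ball z₀ r, ∑ i, (m i : ℂ) * p i (pt a v z) ∈ (Λ (pt a v z)).lattice) → m = 0
  /-- the exponents are independent modulo constants along the line -/
  independent_t : ∀ (m : Fin s → ℤ) (c : ℂ), (∀ z ∈ Metric.ball z₀ r, ∑ k, (m k : ℂ) * t k (pt a v z) = c) → m = 0

/-- the name of a function -/
def nm {n s : ℕ} : Y776.Cv.Nv n s → Name n s :=
  Sum.elim ![Name.omega₁, Name.omega₂, Name.eta₁, Name.g₂, Name.g₃] (Sum.elim Name.p (Sum.elim Name.zeta
    (Sum.elim Name.wp (Sum.elim Name.t Name.expt))))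

/-- the function with a given name -/
def mn {n s : ℕ} : Name n s → Y776.Cv.Nv n s := fun a => match a with
  | Name.omega₁ => Sum.inl 0
  | Name.omega₂ => Sum.inl 1
  | Name.eta₁ => Sum.inl 2
  | Name.g₂ => Sum.inl 3
  | Name.g₃ => Sum.inl 4
  | Name.p i => Sum.inr (Sum.inl i)
  | Name.zeta i => Sum.inr (Sum.inr (Sum.inl i))
  | Name.wp i => Sum.inr (Sum.inr (Sum.inr (Sum.inl i)))
  | Name.t k => Sum.inr (Sum.inr (Sum.inr (Sum.inr (Sum.inl k))))
  | Name.expt k => Sum.inr (Sum.inr (Sum.inr (Sum.inr (Sum.inr k))))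

/-- the names and the functions of the library -/
def eqv (n s : ℕ) : Y776.Cv.Nv n s ≃ Name n s where
  toFun := nm
  invFun := mn
  left_inv := by
    rintro (a | a | a | a | a | a)
    · fin_cases a <;> rfl
    all_goals rfl
  right_inv := by rintro (_ | _ | _ | _ | _ | i | i | i | i | i) <;> rfl

noncomputable instance (n s : ℕ) : Fintype (Name n s) := Fintype.ofEquiv _ (eqv n s)

noncomputable instance (n s : ℕ) : DecidableEq (Name n s) := Classical.decEq _

variable {X : Type} [Fintype X] [DecidableEq X] {U : Set (X → ℂ)} {n s : ℕ} {Λ : (X → ℂ) → PeriodPair}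
  {p : Fin n → (X → ℂ) → ℂ} {t : Fin s → (X → ℂ) → ℂ} {a v : X → ℂ} {z₀ : ℂ} {r : ℝ}

omit [Fintype X] [DecidableEq X] in
theorem value_eq (o : Y776.Cv.Nv n s) (z : ℂ) : value Λ p t (pt a v z) (nm o) =
    Y776.Cv.yv (fun z => Λ (pt a v z)) (fun i z => p i (pt a v z)) (fun k z => t k (pt a v z)) o z := by
  rcases o with o | i | i | i | k | k
  · fin_cases o
    · rfl
    · rfl
    · exact (Pool.Agent.TH813.Ell.eta_half (Λ (pt a v z)).ω₁_mem_lattice
        (Pool.Agent.TH813.Ell.half₁ (Λ (pt a v z)))).symm
    · rfl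
    · rfl
  all_goals rfl

/-- independent functions -/
theorem indep (hU : IsOpen U) (h : Family U Λ p t a v z₀ r) :
    ∃ e : Fin (3 + 2 * n + s) → Name n s, Function.Injective e ∧ IndepM U fun k x => value Λ p t x (e k) := by
  classical
  have han : ∀ m : Name n s, AnalyticOnNhd ℂ (fun z => value Λ p t (pt a v z) m) (Metric.ball z₀ r) := fun m z hz =>
    AnalyticAt.fun_comp (g := fun x => value Λ p t x m) (f := pt a v) (h.analytic m _ (h.mem z hz)) (pt_an a v z)
  have hF : Y776.Cv.FxV (Metric.ball z₀ r) (fun z => Λ (pt a v z)) (fun i z => p i (pt a v z))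
      (fun k z => t k (pt a v z)) :=
    { isOpen := Metric.isOpen_ball, conn := (convex_ball z₀ r).isPreconnected, an₁ := han Name.omega₁
      an₂ := han Name.omega₂, nr := h.nonconstant, ua := fun i => han (Name.p i)
      un := fun i z hz => h.p_notMem i _ (h.mem z hz), ui := h.independent_p, la := fun k => han (Name.t k)
      li := h.independent_t }
  obtain ⟨e, he, hL⟩ := Y776.Cv.var_sub hF ⟨z₀, Metric.mem_ball_self h.r_pos⟩
  have hcast : 3 + 2 * n + s = 3 + (s + 2 * n) := by ring
  refine ⟨fun k => nm (e (Fin.cast hcast k)), fun k l hkl =>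
    Fin.cast_injective hcast (he ((eqv n s).injective hkl)), ?_⟩
  refine indep_of_line hU (fun i => h.analytic _) (a := a) (v := v) (t0 := z₀)
    (h.mem z₀ (Metric.mem_ball_self h.r_pos)) ?_
  have h1 := hL z₀ (Metric.mem_ball_self h.r_pos)
  intro P hP
  have h2 := h1 (MvPolynomial.rename (Option.map (Fin.cast hcast)) P) (by
    filter_upwards [hP] with z hz
    rw [MvPolynomial.eval_rename, ← hz]
    congr 2
    funext o
    rcases o with _ | k
    · rfl
    · exact (value_eq (e (Fin.cast hcast k)) z).symm)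
  exact MvPolynomial.rename_injective _ (Option.map_injective (Fin.cast_injective hcast)) (by rw [h2, map_zero])

/-- the number `2 π i` -/
noncomputable def tpi : ℂ := 2 * Real.pi * Complex.I

/-- There is no nontrivial relation of degree at most `k` in each `y i` with coefficients of the form `∑ a, c l a * ξ a`,
and none with coefficients of the form `∑ a, c l a * (2 π i) ^ a` (that is between the `y i` and `2 π i`), where the `c l a`
are integers of `K` with all conjugates at most `T ^ k`. -/
def WithPi {ι : Type} [Fintype ι] [DecidableEq ι] (k : ℕ) (K : Type) [Field K] [NumberField K] (io : K →+* ℂ)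
    (ξ : Fin k → ℂ) (T : ℝ) (y : ι → ℂ) : Prop :=
  ∀ c : (ι → Fin (k + 1)) → Fin k → 𝓞 K, (∀ l a (φ : K →+* ℂ), ‖φ (c l a : K)‖ ≤ T ^ k) →
    (poly (fun l a => io (c l a : K)) ξ y = 0 → ∀ l, ∑ a, io (c l a : K) * ξ a = 0) ∧
    (poly (fun l a => io (c l a : K)) (fun a => tpi ^ (a : ℕ)) y = 0 → ∀ l a, c l a = 0)

/-- the points with coordinates in `K` of height at most `T`, of norm at most `k` and at distance at least `1 / k` from the
complement of `U`, which do not have the property `q` -/
def Bad {X : Type} [Fintype X] (U : Set (X → ℂ)) (q : (X → ℂ) → Prop) (k : ℕ) (K : Type) [Field K]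
    [NumberField K] (io : K →+* ℂ) (T : ℝ) : Set (X → K) :=
  {s | (∀ j, Y120.HtLe K T (s j)) ∧ (fun j => io (s j)) ∈ InnerM U k ∧ ¬ q (fun j => io (s j))}

/-- the powers of `2 π i` are independent over the algebraic numbers -/
theorem tpi_indep {k : ℕ} (K : Type) [Field K] [NumberField K] (io : K →+* ℂ) (c : Fin k → K)
    (h : ∑ a, io (c a) * tpi ^ (a : ℕ) = 0) : ∀ a, c a = 0 := by
  classical
  let p : Polynomial K := ∑ a : Fin k, Polynomial.monomial (a : ℕ) (c a)
  have hp : Polynomial.eval₂ io tpi p = 0 := by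
    rw [Polynomial.eval₂_finsetSum]
    rw [← h]
    refine Finset.sum_congr rfl fun a _ => ?_
    rw [Polynomial.eval₂_monomial]
  have htr : Transcendental ℚ tpi := by
    intro h1
    have h2 : IsAlgebraic ℚ (tpi ^ 2) := h1.pow 2
    have h3 : tpi ^ 2 = algebraMap ℚ ℂ (-4) * (Real.pi : ℂ) ^ 2 := by
      unfold tpi
      rw [mul_pow, mul_pow, Complex.I_sq]
      norm_num
    have h4 : (Real.pi : ℂ) ^ 2 = algebraMap ℚ ℂ (-4)⁻¹ * tpi ^ 2 := by
      rw [h3, ← mul_assoc, ← map_mul]
      norm_num
    have h5 : IsAlgebraic ℚ ((Real.pi : ℂ) ^ 2) := by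
      rw [h4]
      exact (isAlgebraic_algebraMap _).mul h2
    exact Pool.Agent.H340R2.LW.transcendental_pi_complex (h5.of_pow two_pos)
  have hp0 : p = 0 := by
    by_contra hne
    apply htr
    let _ : Algebra K ℂ := io.toAlgebra
    have h6 : IsAlgebraic K tpi := ⟨p, hne, hp⟩
    have : IsScalarTower ℚ K ℂ := IsScalarTower.of_algebraMap_eq fun q => by
      rw [eq_ratCast]
      exact (map_ratCast (algebraMap K ℂ) q).symm.trans (by rw [eq_ratCast])
    exact h6.restrictScalars ℚ
  intro a
  have h7 : p.coeff (a : ℕ) = c a := by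
    rw [Polynomial.finsetSum_coeff, Finset.sum_eq_single a]
    · rw [Polynomial.coeff_monomial, if_pos rfl]
    · intro b _ hb
      rw [Polynomial.coeff_monomial, if_neg (fun h8 => hb (Fin.ext h8))]
    · intro h8
      exact absurd (Finset.mem_univ a) h8
  rw [← h7, hp0, Polynomial.coeff_zero]

/-- Let `Λ` be a family of lattices over the connected open set `U ⊆ ℂ ^ X`, with `n` families of points and `s` families
of exponents, analytic and generic along one line. There are `3 + 2 n + s` different functions among `ω₁, ω₂, η₁, g₂,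
g₃`, `p_i, ℘(p_i), ζ(p_i)`, `t_k, exp(t_k)` and there is `ω → ∞` such that for all large `T`, all number fields `K` of
degree at most `ω T`, all embeddings and all complex numbers `ξ a`, `a < ω T`, there are few points at which their values
satisfy a nontrivial relation of bounded degree and height, with coefficients formed with the `ξ a` or with the powers
of `2 π i`. -/
theorem result {X : Type} [Fintype X] [DecidableEq X] [Nonempty X] (U : Set (X → ℂ)) (hU : IsOpen U) {n s : ℕ}
    (Λ : (X → ℂ) → PeriodPair) (p : Fin n → (X → ℂ) → ℂ) (t : Fin s → (X → ℂ) → ℂ) (a v : X → ℂ) (z₀ : ℂ) (r : ℝ)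
    (h : Family U Λ p t a v z₀ r) :
    ∃ e : Fin (3 + 2 * n + s) → Name n s, Function.Injective e ∧
      ∃ (ω : ℝ → ℕ) (T₀ : ℝ), Tendsto ω atTop atTop ∧ Monotone ω ∧ ∀ T, T₀ ≤ T → 0 < ω T ∧
        ∀ (K : Type) [Field K] [NumberField K], Module.finrank ℚ K ≤ ω T → ∀ (io : K →+* ℂ) (ξ : Fin (ω T) → ℂ),
          Few (ω T) K io T
            (Bad U (fun x => WithPi (ω T) K io ξ T fun k => value Λ p t x (e k)) (ω T) K io T) := by
  classical
  have hne : U.Nonempty := ⟨_, h.mem z₀ (Metric.mem_ball_self h.r_pos)⟩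
  obtain ⟨e, he, hI⟩ := indep hU h
  refine ⟨e, he, ?_⟩
  obtain ⟨ω, T₀, h1, h2, h3⟩ := Pool.Agent.Q311.MV.main h.isPreconnected hU hne (fun k => h.analytic (e k)) hI
    (fun _ a => tpi ^ (a : ℕ))
  refine ⟨ω, T₀, h1, h2, fun T hT => ⟨(h3 T hT).1, fun K _ _ hK io ξ => ?_⟩⟩
  obtain ⟨h4, h5, h6⟩ := (h3 T hT).2 K hK io ξ
  have hsub : Bad U (fun x => WithPi (ω T) K io ξ T fun k => value Λ p t x (e k)) (ω T) K io T ⊆
      {s : X → K | (∀ j, Y120.HtLe K T (s j)) ∧ (fun j => io (s j)) ∈ InnerM U (ω T) ∧
            ¬ (Free (ω T) K io ξ T (fun n => value Λ p t (fun j => io (s j)) (e n)) ∧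
              Free (ω T) K io (fun a => tpi ^ (a : ℕ)) T (fun n => value Λ p t (fun j => io (s j)) (e n)))} := by
    rintro s ⟨hs1, hs2, hs3⟩
    refine ⟨hs1, hs2, fun hf => hs3 fun c hc => ⟨fun hv => hf.1 c hc hv, fun hv => ?_⟩⟩
    intro l a
    have h7 := hf.2 c hc hv l
    have h8 := tpi_indep K io (fun a => (c l a : K)) h7 a
    exact_mod_cast h8
  exact ⟨h4.mono le_rfl le_rfl (Set.image_mono hsub), h5.subset hsub,
    le_trans (by exact_mod_cast Set.ncard_le_ncard hsub h5) h6⟩

end Pool.Agent.Results.MP_8da9ea_nt.SeveralVariables
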